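import Pool.Agent.Results.MP_295da9_pr.PcOneCubicGrowth
import Pool.Agent.Y244.TRI.Perc

set_option autoImplicit false

open MeasureTheory ProbabilityTheory Filter Topology

namespace Pool.Agent.Results.MP_295da9_pr.DensityTendingToOne

open Pool.Agent.H991R2.TriGeom Pool.Agent.Y244.TRI
open Pool.Agent.Results.MP_295da9_pr.PcOneCubicGrowth (IsPlanarTriangulation UniformGrowth cluster
  criticalValue planar criticalValue_one)

/-- The open cluster of the vertex `v` in bond percolation: the vertices that can be reached from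
`v` by a path of `G` all of whose edges are open. -/
def bondCluster {V : Type} (G : SimpleGraph V) (ω : Sym2 V → Bool) (v : V) : Set V :=
  {w | ∃ q : G.Walk v w, ∀ e ∈ q.edges, ω e = true}

/-- The probability that `v` lies in an infinite open cluster of bond percolation with
parameter `p`. -/
noncomputable def bondTheta {V : Type} (G : SimpleGraph V) (v : V) (p : unitInterval) : ℝ :=
  (bits (fun _ : Sym2 V => p)).real {ω | (bondCluster G ω v).Infinite}

/-- The critical value for bond percolation, computed at the vertex `v`. -/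
noncomputable def bondCriticalValue {V : Type} (G : SimpleGraph V) (v : V) : ℝ :=
  sSup {p : ℝ | ∃ h : p ∈ Set.Icc (0 : ℝ) 1, bondTheta G v ⟨p, h⟩ = 0}

/-! ### estimates -/

theorem dist_bound {k : ℕ} {o a : VV} (ho : o.1 < 8 ^ k) (ha : a.1 < 8 ^ k) :
    GG.dist o a ≤ 14 * 2 ^ k := by
  obtain ⟨q, hq⟩ := cell_diam k (x := o) (y := a)
    (by rw [Nat.div_eq_of_lt ho, Nat.div_eq_of_lt ha])
  exact (SimpleGraph.dist_le q).trans hq

theorem log_bound {k : ℕ} {x : ℝ} (hx0 : 0 < x) (hx : x ≤ 32 * 2 ^ k) :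
    Real.log x ≤ k + 5 := by
  have h1 : Real.log x ≤ Real.log (2 ^ (k + 5)) := by
    refine Real.log_le_log hx0 (hx.trans (le_of_eq ?_))
    rw [pow_add]; norm_num; ring
  refine h1.trans ?_
  rw [Real.log_pow]
  push_cast
  have h2 : Real.log 2 ≤ 1 := by
    have := Real.log_two_lt_d9; linarith
  have h3 : (0 : ℝ) ≤ (k : ℝ) + 5 := by positivity
  calc ((k : ℝ) + 5) * Real.log 2 ≤ ((k : ℝ) + 5) * 1 := mul_le_mul_of_nonneg_left h2 h3
    _ = k + 5 := mul_one _

theorem prod_bound {ι : Type} {p : ι → unitInterval} (F : Finset ι) {D : ℕ} (hD : 1 ≤ D)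
    (hF : F.card ≤ D) {c x : ℝ} (hc : 0 < c) (hc1 : c ≤ 1) (hx : 1 ≤ x)
    (h : ∀ e ∈ F, c * x ^ (-(1 / (D : ℝ))) ≤ 1 - (p e : ℝ)) :
    c ^ D / x ≤ ∏ e ∈ F, (1 - (p e : ℝ)) := by
  have hx0 : 0 < x := by linarith
  have hD0 : (0 : ℝ) < D := by exact_mod_cast hD
  set t : ℝ := c * x ^ (-(1 / (D : ℝ))) with ht
  have ht0 : 0 < t := by positivity
  have hx1 : x ^ (-(1 / (D : ℝ))) ≤ 1 :=
    Real.rpow_le_one_of_one_le_of_nonpos hx (by
      have : 0 < 1 / (D : ℝ) := by positivity
      linarith)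
  have ht1 : t ≤ 1 := by
    have h0 : 0 ≤ x ^ (-(1 / (D : ℝ))) := by positivity
    nlinarith
  have e1 : t ^ D = c ^ D / x := by
    rw [ht, mul_pow, ← Real.rpow_natCast (x ^ (-(1 / (D : ℝ)))) D, ← Real.rpow_mul hx0.le]
    have : -(1 / (D : ℝ)) * (D : ℝ) = -1 := by field_simp
    rw [this, Real.rpow_neg_one, div_eq_mul_inv]
  rw [← e1]
  calc t ^ D ≤ t ^ F.card := pow_le_pow_of_le_one ht0.le ht1 hF
    _ = ∏ _e ∈ F, t := by rw [Finset.prod_const]
    _ ≤ ∏ e ∈ F, (1 - (p e : ℝ)) := Finset.prod_le_prod (fun _ _ => ht0.le) h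

/-- the condition at a place within the cell of level `k` -/
theorem cond_bound {k : ℕ} {c a x s : ℝ} (hc : 0 < c) (ha : 0 < a) (hx : 2 ≤ x)
    (hx2 : x ≤ 32 * 2 ^ k) (h : s ≤ 1 - c * (Real.log x) ^ (-a)) :
    min c 1 * ((k : ℝ) + 5) ^ (-a) ≤ 1 - s := by
  have h1 := log_bound (by linarith) hx2
  have h2 : 0 < Real.log x := Real.log_pos (by linarith)
  have h3 : ((k : ℝ) + 5) ^ (-a) ≤ (Real.log x) ^ (-a) :=
    Real.rpow_le_rpow_of_nonpos h2 h1 (by linarith)
  have h4 : (0 : ℝ) ≤ ((k : ℝ) + 5) ^ (-a) := by positivity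
  have h5 : min c 1 * ((k : ℝ) + 5) ^ (-a) ≤ c * (Real.log x) ^ (-a) :=
    mul_le_mul (min_le_left _ _) h3 h4 hc.le
  linarith

theorem xx_lt' (k : ℕ) : xx k < 8 ^ k := by
  have := xx_lt k
  omega

theorem xx_strictMono : StrictMono xx := by
  apply strictMono_nat_of_lt_succ
  intro k
  simp only [xx]
  have : 0 < 8 ^ k := by positivity
  omega

theorem inside {v : ℕ} {k : ℕ} (h : v ≤ k) : v < 8 ^ k :=
  lt_of_lt_of_le (Nat.lt_pow_self (by norm_num)) (Nat.pow_le_pow_right (by norm_num) h)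

theorem inner_finite (k : ℕ) : {a : VV | a.1 < 8 ^ k}.Finite := by
  have : {a : VV | a.1 < 8 ^ k} = (Set.Iio (8 ^ k)) ×ˢ (Set.univ : Set (Fin 3)) := by
    ext a; simp
  rw [this]
  exact (Set.finite_Iio _).prod Set.finite_univ

/-! ### sites -/

/-- the separating triangle of index `k` -/
noncomputable def Tri (k : ℕ) : Finset VV :=
  (Finset.univ : Finset (Fin 3)).image (fun r => ((xx k, r) : VV))

theorem mem_Tri {k : ℕ} {x : VV} : x ∈ Tri k ↔ x.1 = xx k := by
  simp only [Tri, Finset.mem_image, Finset.mem_univ, true_and]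
  constructor
  · rintro ⟨r, rfl⟩; rfl
  · intro h; exact ⟨x.2, by rw [← h]⟩

theorem Tri_card (k : ℕ) : (Tri k).card ≤ 3 := by
  refine Finset.card_image_le.trans ?_
  simp

theorem Tri_disjoint (j k : ℕ) (h : j < k) : Disjoint (Tri j) (Tri k) := by
  rw [Finset.disjoint_left]
  intro x hx hx'
  rw [mem_Tri] at hx hx'
  exact absurd (hx.symm.trans hx') (xx_strictMono h).ne

theorem site_null (o : VV) (c : ℝ) (hc : 0 < c) (p : VV → unitInterval)
    (hp : ∀ v, (p v : ℝ) ≤ 1 - c * (Real.log (2 + GG.dist o v)) ^ (-(1 / 3 : ℝ))) (v : VV) :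
    bits p {ω | (cluster GG ω v).Infinite} = 0 := by
  refine null_of_subset Tri (b := fun k => (min c 1) ^ 3 / ((k : ℝ) + (5 : ℕ))) (v.1 + o.1) ?_
    Tri_disjoint ?_ ?_
  · intro k hk
    have h3 : ((3 : ℕ) : ℝ) = 3 := by norm_num
    have := prod_bound (p := p) (Tri k) (D := 3) (by norm_num) (Tri_card k) (c := min c 1)
      (x := (k : ℝ) + (5 : ℕ)) (lt_min hc one_pos) (min_le_right _ _) (by push_cast; linarith [(Nat.cast_nonneg k : (0 : ℝ) ≤ k)])
      (fun e he => by
        rw [mem_Tri] at he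
        have hd : GG.dist o e ≤ 14 * 2 ^ k :=
          dist_bound (inside (by omega)) (by rw [he]; exact xx_lt' k)
        have hd' : (GG.dist o e : ℝ) ≤ 14 * 2 ^ k := by exact_mod_cast hd
        have h2k : (1 : ℝ) ≤ 2 ^ k := one_le_pow₀ (by norm_num)
        have := cond_bound (k := k) (c := c) (a := 1 / 3) (x := 2 + GG.dist o e) (s := p e) hc
          (by norm_num) (by linarith [(Nat.cast_nonneg (GG.dist o e) : (0 : ℝ) ≤ _)])
          (by linarith) (hp e)
        push_cast
        exact this)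
    exact this
  · exact harmonic_div (by have : 0 < min c 1 := lt_min hc one_pos
                           positivity) _ 5 (by norm_num)
  · intro ω hω k hk
    have hinf : (cluster GG ω v).Infinite := hω
    obtain ⟨w, hw, hw'⟩ := hinf.exists_notMem_finite (inner_finite k)
    obtain ⟨q, hq⟩ := hw
    obtain ⟨x, hx, hx'⟩ := walk_crosses q (inside (show v.1 ≤ k by omega)) (not_lt.1 hw')
    exact ⟨x, mem_Tri.2 hx', hq x hx⟩

/-! ### bonds -/

open Classical in
/-- the edges which leave the cell of level `k` from the separating triangle -/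
noncomputable def Cut (k : ℕ) : Finset (Sym2 VV) :=
  (Finset.univ : Finset (Fin 3)).biUnion (fun r =>
    ((ball_finite (xx k, r) 1).toFinset.filter
      (fun y => 8 ^ k ≤ y.1 ∧ GG.Adj (xx k, r) y)).image (fun y => s((xx k, r), y)))

theorem mem_Cut {k : ℕ} {e : Sym2 VV} (h : e ∈ Cut k) :
    ∃ x y : VV, e = s(x, y) ∧ x.1 = xx k ∧ 8 ^ k ≤ y.1 ∧ GG.Adj x y := by
  classical
  simp only [Cut, Finset.mem_biUnion, Finset.mem_univ, true_and, Finset.mem_image,
    Finset.mem_filter] at h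
  obtain ⟨r, y, ⟨_, h2, h3⟩, h4⟩ := h
  exact ⟨(xx k, r), y, h4.symm, rfl, h2, h3⟩

theorem of_mem_Cut {k : ℕ} {x y : VV} (hx : x.1 = xx k) (hy : 8 ^ k ≤ y.1) (h : GG.Adj x y) :
    s(x, y) ∈ Cut k := by
  classical
  have e : x = (xx k, x.2) := by rw [← hx]
  simp only [Cut, Finset.mem_biUnion, Finset.mem_univ, true_and, Finset.mem_image,
    Finset.mem_filter]
  refine ⟨x.2, y, ⟨?_, hy, by rw [← e]; exact h⟩, by rw [← e]⟩
  rw [Set.Finite.mem_toFinset, Set.mem_setOf_eq, ← e]
  exact (SimpleGraph.dist_eq_one_iff_adj.2 h).le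

theorem Cut_card (k : ℕ) : (Cut k).card ≤ 1371 := by
  classical
  refine (Finset.card_biUnion_le_card_mul _ _ 457 fun r _ => ?_).trans (by simp)
  refine Finset.card_image_le.trans ((Finset.card_filter_le _ _).trans ?_)
  have h := (growth 1 le_rfl ((xx k, r) : VV)).2
  rw [← Set.ncard_eq_toFinset_card _ (ball_finite (xx k, r) 1)]
  have h2 : ({w | GG.dist ((xx k, r) : VV) w ≤ 1}.ncard : ℝ) < (457 : ℕ) := by
    push_cast at h ⊢
    linarith
  exact (Nat.cast_lt.1 h2).le

theorem Cut_disjoint (j k : ℕ) (h : j < k) : Disjoint (Cut j) (Cut k) := by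
  rw [Finset.disjoint_left]
  intro e he he'
  obtain ⟨x, y, rfl, hx, hy, -⟩ := mem_Cut he
  obtain ⟨x', y', hxy, hx', hy', -⟩ := mem_Cut he'
  have h8 : 8 ^ j ≤ 8 ^ k := Nat.pow_le_pow_right (by norm_num) h.le
  rw [Sym2.eq_iff] at hxy
  rcases hxy with ⟨h1, -⟩ | ⟨h1, -⟩
  · rw [h1, hx'] at hx
    exact absurd hx (xx_strictMono h).ne'
  · have := xx_lt' j
    rw [h1] at hx
    omega

theorem walk_edge {k : ℕ} {a b : VV} (q : GG.Walk a b) (ha : a.1 < 8 ^ k) (hb : 8 ^ k ≤ b.1) :
    ∃ e ∈ q.edges, e ∈ Cut k := by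
  induction q with
  | nil => omega
  | cons h q ih =>
    rename_i u v w
    rcases Nat.lt_or_ge v.1 (8 ^ k) with h' | h'
    · obtain ⟨x, hx, hx'⟩ := ih h' hb
      exact ⟨x, by rw [SimpleGraph.Walk.edges_cons]; exact List.mem_cons_of_mem _ hx, hx'⟩
    · exact ⟨s(u, v), by rw [SimpleGraph.Walk.edges_cons]; exact List.mem_cons_self,
        of_mem_Cut (exit_of_leave ha h' h.2) h' h⟩

theorem bond_null (o : VV) (c : ℝ) (hc : 0 < c) (p : Sym2 VV → unitInterval)
    (hp : ∀ x y, GG.Adj x y → (p s(x, y) : ℝ) ≤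
      1 - c * (Real.log (2 + GG.dist o x + GG.dist o y)) ^ (-(1 / 1371 : ℝ))) (v : VV) :
    bits p {ω | (bondCluster GG ω v).Infinite} = 0 := by
  refine null_of_subset Cut (b := fun k => (min c 1) ^ 1371 / ((k : ℝ) + (5 : ℕ))) (v.1 + o.1) ?_
    Cut_disjoint ?_ ?_
  · intro k hk
    have := prod_bound (p := p) (Cut k) (D := 1371) (by norm_num) (Cut_card k) (c := min c 1)
      (x := (k : ℝ) + (5 : ℕ)) (lt_min hc one_pos) (min_le_right _ _) (by push_cast; linarith [(Nat.cast_nonneg k : (0 : ℝ) ≤ k)])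
      (fun e he => by
        obtain ⟨x, y, rfl, hx, hy, hxy⟩ := mem_Cut he
        have hd : GG.dist o x ≤ 14 * 2 ^ k :=
          dist_bound (inside (by omega)) (by rw [hx]; exact xx_lt' k)
        have hd2 : GG.dist o y ≤ 14 * 2 ^ k + 1 := by
          have h1 := GG_connected.dist_triangle (u := o) (v := x) (w := y)
          rw [SimpleGraph.dist_eq_one_iff_adj.2 hxy] at h1
          omega
        have hd' : (GG.dist o x : ℝ) ≤ 14 * 2 ^ k := by exact_mod_cast hd
        have hd2' : (GG.dist o y : ℝ) ≤ 14 * 2 ^ k + 1 := by exact_mod_cast hd2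
        have h2k : (1 : ℝ) ≤ 2 ^ k := one_le_pow₀ (by norm_num)
        have := cond_bound (k := k) (c := c) (a := 1 / 1371)
          (x := 2 + GG.dist o x + GG.dist o y) (s := p s(x, y)) hc
          (by norm_num) (by linarith [(Nat.cast_nonneg (GG.dist o x) : (0 : ℝ) ≤ _),
            (Nat.cast_nonneg (GG.dist o y) : (0 : ℝ) ≤ _)])
          (by linarith) (hp x y hxy)
        push_cast
        exact this)
    exact this
  · exact harmonic_div (by have : 0 < min c 1 := lt_min hc one_pos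
                           positivity) _ 5 (by norm_num)
  · intro ω hω k hk
    have hinf : (bondCluster GG ω v).Infinite := hω
    obtain ⟨w, hw, hw'⟩ := hinf.exists_notMem_finite (inner_finite k)
    obtain ⟨q, hq⟩ := hw
    obtain ⟨e, he, he'⟩ := walk_edge q (inside (show v.1 ≤ k by omega)) (not_lt.1 hw')
    exact ⟨e, he', hq e he⟩

theorem bondTheta_zero (v : VV) (p : unitInterval) (hp : p < 1) : bondTheta GG v p = 0 := by
  have hp1 : (p : ℝ) < 1 := hp
  have hl2 : 0 < Real.log 2 := Real.log_pos (by norm_num)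
  set c : ℝ := (1 - (p : ℝ)) * (Real.log 2) ^ (1 / 1371 : ℝ) with hc
  have hc0 : 0 < c := mul_pos (by linarith) (Real.rpow_pos_of_pos hl2 _)
  have := bond_null v c hc0 (fun _ => p) (fun x y _ => by
    have h1 : Real.log 2 ≤ Real.log (2 + GG.dist v x + GG.dist v y) :=
      Real.log_le_log (by norm_num) (by
        linarith [(Nat.cast_nonneg (GG.dist v x) : (0 : ℝ) ≤ _),
            (Nat.cast_nonneg (GG.dist v y) : (0 : ℝ) ≤ _)])
    have h2 : (Real.log (2 + GG.dist v x + GG.dist v y)) ^ (-(1 / 1371 : ℝ)) ≤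
        (Real.log 2) ^ (-(1 / 1371 : ℝ)) := Real.rpow_le_rpow_of_nonpos hl2 h1 (by norm_num)
    have h3 : c * (Real.log 2) ^ (-(1 / 1371 : ℝ)) = 1 - (p : ℝ) := by
      rw [hc, mul_assoc, ← Real.rpow_add hl2]
      norm_num
    have h4 := mul_le_mul_of_nonneg_left h2 hc0.le
    linarith) v
  rw [bondTheta, measureReal_def, this, ENNReal.toReal_zero]

theorem bondCriticalValue_one (v : VV) : bondCriticalValue GG v = 1 := by
  unfold bondCriticalValue
  apply le_antisymm
  · apply csSup_le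
    · refine ⟨0, ⟨le_rfl, zero_le_one⟩, bondTheta_zero v _ ?_⟩
      show (0 : ℝ) < 1
      norm_num
    · rintro p ⟨h, _⟩
      exact h.2
  · apply le_of_forall_lt_imp_le_of_dense
    intro a ha
    by_cases h0 : a < 0
    · refine le_trans h0.le (le_csSup ⟨1, ?_⟩ ⟨⟨le_rfl, zero_le_one⟩, bondTheta_zero v _ ?_⟩)
      · rintro p ⟨h, _⟩; exact h.2
      · show (0 : ℝ) < 1
        norm_num
    · refine le_csSup ⟨1, ?_⟩ ⟨⟨not_lt.1 h0, ha.le⟩, bondTheta_zero v _ ha⟩
      rintro p ⟨h, _⟩; exact h.2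

/-- There is a planar triangulation of uniform volume growth `n ^ 3` on which even percolation
with a density of open sites (or open edges) tending to one at infinity has no infinite cluster:
it suffices that a site `v` is closed with probability at least
`c (log (2 + dist o v)) ^ (-1/3)`, and similarly for edges. In particular both critical values,
for site and for bond percolation, are equal to one. -/
theorem result : ∃ (V : Type) (G : SimpleGraph V),
    Countable V ∧ Infinite V ∧ G.Connected ∧ (∀ v, (G.neighborSet v).Finite) ∧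
    IsPlanarTriangulation G ∧ UniformGrowth G (fun n => (n : ℝ) ^ 3) ∧
    (∀ (o : V) (c : ℝ), 0 < c → ∀ p : V → unitInterval,
      (∀ v, (p v : ℝ) ≤ 1 - c * (Real.log (2 + G.dist o v)) ^ (-(1 / 3 : ℝ))) →
      ∀ v : V, bits p {ω | (cluster G ω v).Infinite} = 0) ∧
    (∃ a : ℝ, 0 < a ∧ ∀ (o : V) (c : ℝ), 0 < c → ∀ p : Sym2 V → unitInterval,
      (∀ x y, G.Adj x y → (p s(x, y) : ℝ) ≤
        1 - c * (Real.log (2 + G.dist o x + G.dist o y)) ^ (-a)) →
      ∀ v : V, bits p {ω | (bondCluster G ω v).Infinite} = 0) ∧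
    (∀ v : V, criticalValue G v = 1) ∧ (∀ v : V, bondCriticalValue G v = 1) := by
  refine ⟨VV, GG, inferInstance, inferInstance, GG_connected, ?_, planar, ?_, site_null,
    ⟨1 / 1371, by norm_num, bond_null⟩, criticalValue_one, bondCriticalValue_one⟩
  · intro v
    refine (ball_finite v 1).subset ?_
    intro w hw
    have hw' : GG.Adj v w := hw
    show GG.dist v w ≤ 1
    rw [SimpleGraph.dist_eq_one_iff_adj.2 hw']
  · exact ⟨1 / 22000, 457, by norm_num, by norm_num, fun n hn v =>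
      ⟨ball_finite v n, growth n hn v⟩⟩

end Pool.Agent.Results.MP_295da9_pr.DensityTendingToOne
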